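import Pool.Agent.U722.FF.Stm4

set_option autoImplicit false

/-!
# Project LB (helper722), package MZ: central elements `z` such that `1 - z` is invertible
-/

namespace Pool.Agent.U15.LBP

open TH57.FF Matrix MulAction U722.FF

section gen

variable {R : Type} [Ring R]

/-- the matrix of a linear map of row vectors -/
noncomputable def mt {ι κ : Type} [DecidableEq ι] (φ : (ι → R) →ₗ[R] (κ → R)) : Matrix ι κ R :=
  fun i j => φ (fun k => if i = k then 1 else 0) j

theorem vecMul_mt {ι κ : Type} [Fintype ι] [DecidableEq ι] (φ : (ι → R) →ₗ[R] (κ → R))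
    (v : ι → R) : v ᵥ* mt φ = φ v := by
  rw [LinearMap.pi_apply_eq_sum_univ φ v]
  ext j
  rw [Finset.sum_apply]
  rfl

/-- resolutions by matrices -/
theorem mat_res : ∀ (n : ℕ) (M : Type) [AddCommGroup M] [Module R M], FR R n M →
    ∃ (ι : ℕ → Type) (_ : ∀ i, Fintype (ι i)) (d : ∀ i, Matrix (ι (i + 1)) (ι i) R)
      (ε : (ι 0 → R) →ₗ[R] M),
      (∀ i, n < i → IsEmpty (ι i)) ∧ Function.Surjective ε ∧
      (∀ v : ι 0 → R, ε v = 0 ↔ ∃ w : ι 1 → R, w ᵥ* d 0 = v) ∧
      (∀ (i : ℕ) (v : ι (i + 1) → R), v ᵥ* d i = 0 ↔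
        ∃ w : ι (i + 2) → R, w ᵥ* d (i + 1) = v)
  | 0, M, _, _, h => by
    obtain ⟨h1, h2⟩ := h
    let b := Module.Free.chooseBasis R M
    let ι : ℕ → Type := fun i => match i with
      | 0 => Module.Free.ChooseBasisIndex R M
      | _ + 1 => Empty
    let iF : ∀ i, Fintype (ι i) := fun i => match i with
      | 0 => (inferInstance : Fintype (Module.Free.ChooseBasisIndex R M))
      | _ + 1 => (inferInstance : Fintype Empty)
    refine ⟨ι, iF, fun i => 0, b.equivFun.symm.toLinearMap, ?_, b.equivFun.symm.surjective, ?_, ?_⟩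
    · intro i hi
      match i with
      | 0 => exact absurd hi (lt_irrefl _)
      | i + 1 => exact (inferInstance : IsEmpty Empty)
    · intro v
      constructor
      · intro hv
        have h3 : v = 0 := b.equivFun.symm.injective (by
          rw [map_zero]
          exact hv)
        exact ⟨0, by rw [h3, Matrix.vecMul_zero]⟩
      · rintro ⟨w, rfl⟩
        rw [Matrix.vecMul_zero, map_zero]
    · intro i v
      have h3 : ∀ v' : ι (i + 1) → R, v' = 0 := fun v' => funext fun x => (show Empty from x).elim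
      rw [Matrix.vecMul_zero]
      exact ⟨fun _ => ⟨0, by rw [h3 v]; exact Matrix.vecMul_zero _⟩, fun _ => rfl⟩
  | n + 1, M, _, _, h => by
    classical
    obtain ⟨κ, iκ, f, hf, h1⟩ := h
    obtain ⟨ι', iF', d', ε', g1, g2, g3, g4⟩ := mat_res n _ h1
    let ι : ℕ → Type := fun i => match i with
      | 0 => κ
      | i + 1 => ι' i
    let iF : ∀ i, Fintype (ι i) := fun i => match i with
      | 0 => iκ
      | i + 1 => iF' i
    let d : ∀ i, Matrix (ι (i + 1)) (ι i) R := fun i => match i with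
      | 0 => mt ((LinearMap.ker f).subtype ∘ₗ ε')
      | i + 1 => d' i
    refine ⟨ι, iF, d, f, ?_, hf, ?_, ?_⟩
    · intro i hi
      match i with
      | 0 => exact absurd hi (by omega)
      | i + 1 => exact g1 i (by omega)
    · intro v
      change f v = 0 ↔ ∃ w : ι' 0 → R, w ᵥ* mt ((LinearMap.ker f).subtype ∘ₗ ε') = v
      constructor
      · intro hv
        obtain ⟨w, hw⟩ := g2 ⟨v, hv⟩
        exact ⟨w, by rw [vecMul_mt, LinearMap.comp_apply, hw]; rfl⟩
      · rintro ⟨w, rfl⟩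
        rw [vecMul_mt]
        exact (ε' w).2
    · intro i v
      match i, v with
      | 0, v =>
        change (v : ι' 0 → R) ᵥ* mt ((LinearMap.ker f).subtype ∘ₗ ε') = 0 ↔
          ∃ w : ι' 1 → R, w ᵥ* d' 0 = v
        rw [vecMul_mt, LinearMap.comp_apply, ← g3]
        exact ⟨fun h => Subtype.ext h, fun h => by rw [h]; rfl⟩
      | i + 1, v => exact g4 i v

/-- the scalar matrix -/
abbrev sc (a : R) (ι : Type) [DecidableEq ι] : Matrix ι ι R := Matrix.diagonal fun _ => a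

theorem sc_comm {a : R} (ha : ∀ r : R, a * r = r * a) {ι κ : Type} [Fintype ι] [Fintype κ]
    [DecidableEq ι] [DecidableEq κ] (X : Matrix ι κ R) : sc a ι * X = X * sc a κ := by
  ext i j
  rw [Matrix.diagonal_mul, Matrix.mul_diagonal, ha]

theorem lift_rows {κ α β γ : Type} [Fintype α] [Fintype β] (A : Matrix α β R) (B : Matrix β γ R)
    (h : ∀ v : β → R, v ᵥ* B = 0 → ∃ w : α → R, w ᵥ* A = v) (X : Matrix κ β R) (hX : X * B = 0) :
    ∃ Y : Matrix κ α R, Y * A = X := by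
  have h1 : ∀ i, ∃ w : α → R, w ᵥ* A = X i := fun i => h (X i) (by
    have := congrFun hX i
    rw [Matrix.mul_apply_eq_vecMul] at this
    exact this)
  obtain ⟨Y, hY⟩ : ∃ Y : Matrix κ α R, ∀ i, Y i ᵥ* A = X i :=
    ⟨fun i => (h1 i).choose, fun i => (h1 i).choose_spec⟩
  refine ⟨Y, ?_⟩
  funext i
  rw [Matrix.mul_apply_eq_vecMul]
  exact hY i

theorem htpy {ι : ℕ → Type} [∀ i, Fintype (ι i)] [∀ i, DecidableEq (ι i)] {M : Type}
    [AddCommGroup M] [Module R M] (d : ∀ i, Matrix (ι (i + 1)) (ι i) R) (ε : (ι 0 → R) →ₗ[R] M)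
    (h0 : ∀ v : ι 0 → R, ε v = 0 ↔ ∃ w : ι 1 → R, w ᵥ* d 0 = v)
    (h1 : ∀ (i : ℕ) (v : ι (i + 1) → R), v ᵥ* d i = 0 ↔ ∃ w : ι (i + 2) → R, w ᵥ* d (i + 1) = v)
    (a : R) (ha : ∀ r, a * r = r * a) (ham : ∀ m : M, a • m = 0) :
    (∃ s : Matrix (ι 0) (ι 1) R, s * d 0 = sc a (ι 0)) ∧
    ∀ n, ∃ (s : Matrix (ι n) (ι (n + 1)) R) (s' : Matrix (ι (n + 1)) (ι (n + 2)) R),
      s' * d (n + 1) + d n * s = sc a (ι (n + 1)) := by
  have hdd : ∀ n, d (n + 1) * d n = 0 := by
    intro n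
    funext i
    rw [Matrix.mul_apply_eq_vecMul]
    exact (h1 n (d (n + 1) i)).2 ⟨Pi.single i 1, Matrix.single_one_vecMul i (d (n + 1))⟩
  obtain ⟨s0, hs0⟩ : ∃ s : Matrix (ι 0) (ι 1) R, s * d 0 = sc a (ι 0) := by
    have h2 : ∀ i, ∃ w : ι 1 → R, w ᵥ* d 0 = sc a (ι 0) i := by
      intro i
      rw [← h0]
      have e : sc a (ι 0) i = a • (Pi.single i (1 : R) : ι 0 → R) := by
        funext j
        show Matrix.diagonal (fun _ => a) i j = a * ((Pi.single i (1 : R) : ι 0 → R) j)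
        rw [Matrix.diagonal_apply, Pi.single_apply]
        by_cases h : i = j
        · rw [if_pos h, if_pos h.symm, mul_one]
        · rw [if_neg h, if_neg (Ne.symm h), mul_zero]
      rw [e, map_smul, ham]
    obtain ⟨Y, hY⟩ : ∃ Y : Matrix (ι 0) (ι 1) R, ∀ i, Y i ᵥ* d 0 = sc a (ι 0) i :=
      ⟨fun i => (h2 i).choose, fun i => (h2 i).choose_spec⟩
    refine ⟨Y, ?_⟩
    funext i
    rw [Matrix.mul_apply_eq_vecMul]
    exact hY i
  refine ⟨⟨s0, hs0⟩, ?_⟩
  intro n
  induction n with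
  | zero =>
    obtain ⟨s', hs'⟩ := lift_rows (d 1) (d 0) (fun v hv => (h1 0 v).1 hv)
      (sc a (ι 1) - d 0 * s0) (by
        rw [Matrix.sub_mul, Matrix.mul_assoc, hs0, sc_comm ha, sub_self])
    exact ⟨s0, s', by rw [hs', sub_add_cancel]⟩
  | succ n ih =>
    obtain ⟨s, s', hs⟩ := ih
    obtain ⟨t, ht⟩ := lift_rows (d (n + 2)) (d (n + 1)) (fun v hv => (h1 (n + 1) v).1 hv)
      (sc a (ι (n + 2)) - d (n + 1) * s') (by
        have e : s' * d (n + 1) = sc a (ι (n + 1)) - d n * s := by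
          rw [← hs, add_sub_cancel_right]
        rw [Matrix.sub_mul, Matrix.mul_assoc, e, Matrix.mul_sub, ← Matrix.mul_assoc, hdd, Matrix.zero_mul,
          sub_zero, sc_comm ha, sub_self])
    exact ⟨s', t, by rw [ht, sub_add_cancel]⟩

theorem mz_gen {U : Type} [Ring U] (ψ : R →+* U) (M : Type) [AddCommGroup M] [Module R M] (a : R)
    (ha : ∀ r, a * r = r * a) (ham : ∀ m : M, a • m = 0) (hu : IsUnit (ψ a)) (n : ℕ)
    (h : FR R n M) : MR ψ 0 M := by
  classical
  obtain ⟨ι, iF, d, ε, g1, g2, g3, g4⟩ := mat_res n M h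
  obtain ⟨⟨s0, hs0⟩, hs⟩ := htpy d ε g3 g4 a ha ham
  obtain ⟨b, hb⟩ := hu
  have hbc : ∀ r : R, (↑b⁻¹ : U) * ψ r = ψ r * ↑b⁻¹ := by
    intro r
    have h1 : (b : U) * ψ r = ψ r * b := by rw [hb, ← map_mul, ha, map_mul]
    rw [Units.inv_mul_eq_iff_eq_mul, ← mul_assoc, h1, mul_assoc, Units.mul_inv, mul_one]
  have hscU : ∀ (κ : Type) [Fintype κ] [DecidableEq κ] (v : κ → U),
      (fun i => v i * (↑b⁻¹ : U)) ᵥ* (sc a κ).map ψ = v := by
    intro κ _ _ v
    rw [Matrix.diagonal_map (map_zero ψ)]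
    funext j
    rw [Matrix.vecMul_diagonal]
    show v j * (↑b⁻¹ : U) * ψ a = v j
    rw [← hb, mul_assoc, Units.inv_mul, mul_one]
  refine ⟨n, ι, iF, d, ε, g1, g2, g3, g4, ?_, ?_⟩
  · intro _ v
    refine ⟨(fun i => v i * (↑b⁻¹ : U)) ᵥ* s0.map ψ, ?_⟩
    rw [Matrix.vecMul_vecMul, ← Matrix.map_mul, hs0]
    exact hscU _ v
  · intro k _ v hv
    obtain ⟨s, s', hss⟩ := hs k
    refine ⟨(fun i => v i * (↑b⁻¹ : U)) ᵥ* s'.map ψ, ?_⟩
    have h2 : (fun i => v i * (↑b⁻¹ : U)) ᵥ* (d k).map ψ = 0 := by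
      funext j
      have h3 := congrFun hv j
      rw [Matrix.vecMul, dotProduct] at h3 ⊢
      have h4 : ∀ i, v i * (↑b⁻¹ : U) * (d k).map ψ i j = v i * (d k).map ψ i j * ↑b⁻¹ := by
        intro i
        rw [Matrix.map_apply, mul_assoc, hbc, mul_assoc]
      rw [Finset.sum_congr rfl fun i _ => h4 i, ← Finset.sum_mul, h3, Pi.zero_apply, zero_mul]
    have h5 := hscU (ι (k + 1)) v
    rw [← hss, Matrix.map_add ψ (map_add ψ), Matrix.map_mul, Matrix.map_mul, Matrix.vecMul_add,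
      ← Matrix.vecMul_vecMul, ← Matrix.vecMul_vecMul, h2, Matrix.zero_vecMul, add_zero] at h5
    exact h5

end gen

/-- package MZ -/
theorem t_MZ : U722.FF.S_MZ := by
  intro H U _ _ c z hz hu hTF
  obtain ⟨n, hn⟩ := hTF
  refine mz_gen (V7N.evM c) _ (1 - MonoidAlgebra.of ℤ H z) ?_ ?_ ?_ n hn
  · intro r
    rw [sub_mul, mul_sub, one_mul, mul_one]
    congr 1
    induction r using MonoidAlgebra.induction_on with
    | of g => rw [← map_mul, ← map_mul, hz]
    | add x y hx hy => rw [mul_add, add_mul, hx, hy]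
    | smul k x hx => rw [mul_smul_comm, smul_mul_assoc, hx]
  · intro m
    rw [sub_smul, one_smul, sub_eq_zero]
    induction m using PM_induction with
    | h0 => rw [smul_zero]
    | h1 x => rw [of_smul_pt]
    | h2 x y hx hy => rw [smul_add, ← hx, ← hy]
    | h3 x hx => rw [smul_neg, ← hx]
  · have e : V7N.evM c (1 - MonoidAlgebra.of ℤ H z) = 1 - c z := by
      rw [map_sub, map_one]
      congr 1
      exact MonoidAlgebra.lift_of c z
    rw [e]
    exact hu

end Pool.Agent.U15.LBP
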